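import Mathlib

/-!
# The kernel of Fejér
-/

set_option autoImplicit false
set_option linter.unusedSectionVars false

namespace Q282OR

open Finset

/-- the kernel at a point of the disc -/
noncomputable def fej (K : ℕ) (z : ℂ) : ℝ := (K + 1) + 2 * ∑ m ∈ Icc 1 K, ((K : ℝ) + 1 - m) * (z ^ m).re

lemma icc_ico (K : ℕ) : Icc 1 K = Ico 1 (K + 1) := by
  ext m
  rw [mem_Icc, mem_Ico]
  omega

/-- the kernel is not less than the square of a partial sum -/
lemma fej_sq (K : ℕ) (z : ℂ) (hz : ‖z‖ ≤ 1) : ‖∑ m ∈ range (K + 1), z ^ m‖ ^ 2 ≤ fej K z := by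
  induction K with
  | zero =>
    unfold fej
    simp
  | succ K ih =>
    have h1 : fej (K + 1) z = fej K z + (2 * (∑ m ∈ range (K + 2), z ^ m).re - 1) := by
      unfold fej
      have h2 : ∑ m ∈ Icc 1 (K + 1), (((K + 1 : ℕ) : ℝ) + 1 - m) * (z ^ m).re =
          ∑ m ∈ Icc 1 K, ((K : ℝ) + 1 - m) * (z ^ m).re + ∑ m ∈ Icc 1 (K + 1), (z ^ m).re := by
        have h3 : ∑ m ∈ Icc 1 K, ((K : ℝ) + 1 - m) * (z ^ m).re = ∑ m ∈ Icc 1 (K + 1), ((K : ℝ) + 1 - m) * (z ^ m).re := by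
          rw [icc_ico K, icc_ico (K + 1), sum_Ico_succ_top (show 1 ≤ K + 1 by omega) fun m : ℕ => ((K : ℝ) + 1 - m) * (z ^ m).re]
          push_cast
          ring
        rw [h3, ← sum_add_distrib]
        refine sum_congr rfl fun m _ => ?_
        push_cast
        ring
      have h4 : (∑ m ∈ range (K + 2), z ^ m).re = 1 + ∑ m ∈ Icc 1 (K + 1), (z ^ m).re := by
        rw [Complex.re_sum, sum_range_eq_add_Ico _ (by omega)]
        rw [icc_ico]
        simp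
      rw [h2, h4]
      push_cast
      ring
    rw [h1]
    have h2 : ∑ m ∈ range (K + 2), z ^ m = 1 + z * ∑ m ∈ range (K + 1), z ^ m := by
      rw [sum_range_succ', mul_sum, pow_zero, add_comm]
      congr 1
      exact sum_congr rfl fun m _ => by rw [pow_succ']
    obtain ⟨s, hs⟩ : ∃ s : ℂ, s = ∑ m ∈ range (K + 1), z ^ m := ⟨_, rfl⟩
    rw [← hs] at ih h2
    rw [h2]
    have h3 : ‖z * s‖ ^ 2 ≤ ‖s‖ ^ 2 := by
      rw [norm_mul]
      refine pow_le_pow_left₀ (by positivity) ?_ 2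
      calc ‖z‖ * ‖s‖ ≤ 1 * ‖s‖ := mul_le_mul_of_nonneg_right hz (norm_nonneg _)
        _ = _ := one_mul _
    have h4 : ‖1 + z * s‖ ^ 2 = 1 + 2 * (z * s).re + ‖z * s‖ ^ 2 := by
      rw [← Complex.normSq_eq_norm_sq, ← Complex.normSq_eq_norm_sq, Complex.normSq_apply, Complex.normSq_apply]
      simp only [Complex.add_re, Complex.add_im, Complex.one_re, Complex.one_im]
      ring
    rw [h4, Complex.add_re, Complex.one_re]
    linarith

lemma fej_nonneg (K : ℕ) (z : ℂ) (hz : ‖z‖ ≤ 1) : 0 ≤ fej K z := le_trans (sq_nonneg _) (fej_sq K z hz)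

lemma sum_weights (K : ℕ) : ∑ m ∈ Icc 1 K, ((K : ℝ) + 1 - m) = K * (K + 1) / 2 := by
  induction K with
  | zero => simp
  | succ K ih =>
    rw [icc_ico] at ih ⊢
    rw [sum_Ico_succ_top (by omega)]
    have h1 : ∑ m ∈ Ico 1 (K + 1), (((K + 1 : ℕ) : ℝ) + 1 - m) = ∑ m ∈ Ico 1 (K + 1), ((K : ℝ) + 1 - m) + K := by
      have h2 : ∑ m ∈ Ico 1 (K + 1), (1 : ℝ) = K := by
        rw [sum_const, Nat.card_Ico, nsmul_eq_mul, mul_one]
        congr 1
      have h3 : ∑ m ∈ Ico 1 (K + 1), (((K + 1 : ℕ) : ℝ) + 1 - m) = ∑ m ∈ Ico 1 (K + 1), (((K : ℝ) + 1 - m) + 1) := by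
        refine sum_congr rfl fun m _ => ?_
        push_cast
        ring
      rw [h3, sum_add_distrib, h2]
    rw [h1, ih]
    push_cast
    ring

/-- near to one the kernel is large -/
lemma fej_near (K N : ℕ) (hK : 2 * K ≤ N + 1) (z : ℂ) (hz : ‖z‖ ≤ 1) (hz1 : ‖z - 1‖ * (N + 1) ≤ 1) : ((K : ℝ) + 1) ^ 2 / 2 ≤ fej K z := by
  have hN : (0 : ℝ) < (N : ℝ) + 1 := by positivity
  have h1 : ∀ m : ℕ, ‖z ^ m - 1‖ ≤ m * ‖z - 1‖ := by
    intro m
    induction m with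
    | zero => simp
    | succ m ih =>
      have h2 : z ^ (m + 1) - 1 = z * (z ^ m - 1) + (z - 1) := by ring
      rw [h2]
      refine (norm_add_le _ _).trans ?_
      rw [norm_mul]
      push_cast
      have h3 : ‖z‖ * ‖z ^ m - 1‖ ≤ 1 * ‖z ^ m - 1‖ := mul_le_mul_of_nonneg_right hz (norm_nonneg _)
      linarith
  have h2 : ∀ m ∈ Icc 1 K, ((K : ℝ) + 1 - m) * (1 / 2) ≤ ((K : ℝ) + 1 - m) * (z ^ m).re := by
    intro m hm
    rw [mem_Icc] at hm
    have hm1 : (m : ℝ) ≤ K := by exact_mod_cast hm.2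
    refine mul_le_mul_of_nonneg_left ?_ (by linarith)
    have h3 : (m : ℝ) * ‖z - 1‖ ≤ 1 / 2 := by
      have h4 : 2 * (m : ℝ) ≤ N + 1 := by
        have : 2 * m ≤ N + 1 := by omega
        exact_mod_cast this
      have h5 := mul_le_mul_of_nonneg_right h4 (norm_nonneg (z - 1))
      linarith
    have h4 : |(z ^ m - 1).re| ≤ 1 / 2 := (Complex.abs_re_le_norm _).trans ((h1 m).trans h3)
    have h5 := (abs_le.1 h4).1
    rw [Complex.sub_re, Complex.one_re] at h5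
    linarith
  have h3 := sum_le_sum h2
  rw [← sum_mul, sum_weights] at h3
  unfold fej
  nlinarith

/-- **The inequality for the number of the points of a multiset near to a point of the circle.** -/
theorem fej_count (K N : ℕ) (hK : 2 * K ≤ N + 1) (Q : ℝ) (hQ : 0 < Q) (ξ : ℂ) (hξ : ‖ξ‖ = 1) (β : Multiset ℂ) (hβ : ∀ g ∈ β, ‖g‖ ≤ Q)
    [DecidablePred fun z : ℂ => ‖z - Q * ξ‖ * (N + 1) ≤ Q] :
    ((β.filter fun z => ‖z - Q * ξ‖ * (N + 1) ≤ Q).card : ℝ) * (((K : ℝ) + 1) ^ 2 / 2) ≤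
      (K + 1) * β.card + 2 * ∑ m ∈ Icc 1 K, ((K : ℝ) + 1 - m) * ((β.map fun g => g ^ m).sum / ((Q : ℂ) * ξ) ^ m).re := by
  have hQc : (Q : ℂ) ≠ 0 := by exact_mod_cast hQ.ne'
  have hξ0 : ξ ≠ 0 := by
    intro h
    rw [h, norm_zero] at hξ
    exact zero_ne_one hξ
  have hw : (Q : ℂ) * ξ ≠ 0 := mul_ne_zero hQc hξ0
  have hwn : ‖(Q : ℂ) * ξ‖ = Q := by
    rw [norm_mul, Complex.norm_real, Real.norm_of_nonneg hQ.le, hξ, mul_one]
  induction β using Multiset.induction_on with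
  | empty => simp
  | cons g β ih =>
    have ih' := ih fun g' hg' => hβ g' (Multiset.mem_cons_of_mem hg')
    have hg := hβ g (Multiset.mem_cons_self g β)
    have hgn : ‖g / ((Q : ℂ) * ξ)‖ ≤ 1 := by
      rw [norm_div, hwn, div_le_one hQ]
      exact hg
    have e1 : (K + 1) * ((g ::ₘ β).card : ℝ) + 2 * ∑ m ∈ Icc 1 K, ((K : ℝ) + 1 - m) * (((g ::ₘ β).map fun g => g ^ m).sum / ((Q : ℂ) * ξ) ^ m).re =
        ((K + 1) * (β.card : ℝ) + 2 * ∑ m ∈ Icc 1 K, ((K : ℝ) + 1 - m) * ((β.map fun g => g ^ m).sum / ((Q : ℂ) * ξ) ^ m).re) +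
          fej K (g / ((Q : ℂ) * ξ)) := by
      unfold fej
      rw [Multiset.card_cons]
      have h2 : ∀ m ∈ Icc 1 K, ((K : ℝ) + 1 - m) * (((g ::ₘ β).map fun g => g ^ m).sum / ((Q : ℂ) * ξ) ^ m).re =
          ((K : ℝ) + 1 - m) * ((β.map fun g => g ^ m).sum / ((Q : ℂ) * ξ) ^ m).re + ((K : ℝ) + 1 - m) * ((g / ((Q : ℂ) * ξ)) ^ m).re := by
        intro m _
        rw [Multiset.map_cons, Multiset.sum_cons, add_div, Complex.add_re, div_pow]
        ring
      rw [sum_congr rfl h2, sum_add_distrib]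
      push_cast
      ring
    rw [e1]
    by_cases h : ‖g - Q * ξ‖ * (N + 1) ≤ Q
    · rw [Multiset.filter_cons_of_pos (p := fun z : ℂ => ‖z - Q * ξ‖ * (N + 1) ≤ Q) β h, Multiset.card_cons]
      have h1 : ‖g / ((Q : ℂ) * ξ) - 1‖ * (N + 1) ≤ 1 := by
        have h2 : g / ((Q : ℂ) * ξ) - 1 = (g - Q * ξ) / ((Q : ℂ) * ξ) := by
          field_simp
        rw [h2, norm_div, hwn, div_mul_eq_mul_div, div_le_one hQ]
        exact h
      have h2 := fej_near K N hK _ hgn h1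
      push_cast
      linarith
    · rw [Multiset.filter_cons_of_neg (p := fun z : ℂ => ‖z - Q * ξ‖ * (N + 1) ≤ Q) β h]
      have h2 := fej_nonneg K _ hgn
      linarith

end Q282OR
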