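import Pool.Agent.Q282.GP.Ind

/-!
# Moments of sums of functions of independent values
-/

set_option autoImplicit false
set_option linter.unusedSectionVars false

namespace Q282OR

open Finset
open Q282GP (av av_add av_sub av_smul av_sum av_const av_nonneg av_mono abs_av)

/-- averages under a surjective homomorphism -/
lemma av_surj {A B : Type} [AddGroup A] [AddGroup B] [Fintype A] [Fintype B] [DecidableEq B] (φ : A → B) (hφ : ∀ a a', φ (a + a') = φ a + φ a')
    (hs : Function.Surjective φ) (G : B → ℝ) : av (fun a => G (φ a)) = av G := by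
  have hfib : ∀ b : B, (univ.filter fun a => φ a = b).card = (univ.filter fun a => φ a = 0).card := by
    intro b
    obtain ⟨a₀, ha₀⟩ := hs b
    have h0 : φ 0 = 0 := by
      have := hφ 0 0
      rw [add_zero] at this
      exact (add_eq_left.1 this.symm)
    have hneg : φ (-a₀) = -b := by
      have := hφ (-a₀) a₀
      rw [neg_add_cancel, h0, ha₀] at this
      exact eq_neg_of_add_eq_zero_left this.symm
    refine card_bij' (fun a _ => a + -a₀) (fun a _ => a + a₀) ?_ ?_ ?_ ?_
    · intro a ha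
      rw [mem_filter] at ha ⊢
      exact ⟨mem_univ _, by rw [hφ, ha.2, hneg, add_neg_cancel]⟩
    · intro a ha
      rw [mem_filter] at ha ⊢
      exact ⟨mem_univ _, by rw [hφ, ha.2, ha₀, zero_add]⟩
    · intro a _
      simp
    · intro a _
      simp
  obtain ⟨n, hn⟩ : ∃ n, n = (univ.filter fun a => φ a = 0).card := ⟨_, rfl⟩
  have h1 : ∑ a, G (φ a) = n * ∑ b, G b := by
    rw [← sum_fiberwise univ φ fun a => G (φ a), mul_sum]
    refine sum_congr rfl fun b _ => ?_
    have h2 : ∀ a ∈ univ.filter (fun a => φ a = b), G (φ a) = G b := fun a ha => by rw [(mem_filter.1 ha).2]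
    rw [sum_congr rfl h2, sum_const, hfib, nsmul_eq_mul, hn]
  have h2 : (Fintype.card A : ℝ) = n * Fintype.card B := by
    have h3 : Fintype.card A = ∑ b : B, (univ.filter fun a => φ a = b).card := by
      rw [← card_univ]
      exact card_eq_sum_card_fiberwise fun a _ => mem_univ _
    rw [h3, sum_congr rfl fun b _ => hfib b, sum_const, ← hn, card_univ, smul_eq_mul]
    push_cast
    ring
  have hn0 : (n : ℝ) ≠ 0 := by
    intro h0
    rw [h0, zero_mul] at h2
    have : (0 : ℝ) < Fintype.card A := by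
      have : Nonempty A := ⟨0⟩
      exact_mod_cast Fintype.card_pos
    linarith
  have hB0 : (Fintype.card B : ℝ) ≠ 0 := by
    have : Nonempty B := ⟨0⟩
    exact_mod_cast (Fintype.card_pos (α := B)).ne'
  unfold av
  rw [h1, h2]
  field_simp

section product

variable {J : Type} [Fintype J] [DecidableEq J] {V : J → Type} [∀ j, AddCommGroup (V j)] [∀ j, Fintype (V j)] [∀ j, DecidableEq (V j)]

/-- **The transfer.** If the values at any `n` indices are independent and uniform, the `n`-th moment is that of the product space. -/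
theorem transfer {B : Type} [AddGroup B] [Fintype B] (e : (j : J) → B → V j) (he : ∀ j b b', e j (b + b') = e j b + e j b')
    (n : ℕ) (hs : ∀ T : Finset J, T.card ≤ n → ∀ v : (j : T) → V j.1, ∃ b, ∀ j : T, e j.1 b = v j)
    (f : (j : J) → V j → ℝ) :
    av (fun b => (∑ j, f j (e j b)) ^ n) = av (fun ω : (j : J) → V j => (∑ j, f j (ω j)) ^ n) := by
  have h1 : (fun b => (∑ j, f j (e j b)) ^ n) = fun b => ∑ t : Fin n → J, ∏ i, f (t i) (e (t i) b) := by
    funext b
    exact Fintype.sum_pow _ n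
  have h2 : (fun ω : (j : J) → V j => (∑ j, f j (ω j)) ^ n) = fun ω => ∑ t : Fin n → J, ∏ i, f (t i) (ω (t i)) := by
    funext ω
    exact Fintype.sum_pow _ n
  rw [h1, h2, av_sum, av_sum]
  refine sum_congr rfl fun t _ => ?_
  obtain ⟨T, hT⟩ : ∃ T : Finset J, T = univ.image t := ⟨_, rfl⟩
  have hTn : T.card ≤ n := by
    rw [hT]
    refine card_image_le.trans ?_
    rw [card_univ, Fintype.card_fin]
  have hmem : ∀ i, t i ∈ T := fun i => by
    rw [hT]
    exact mem_image_of_mem _ (mem_univ _)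
  obtain ⟨G, hG⟩ : ∃ G : ((j : T) → V j.1) → ℝ, G = fun v => ∏ i, f (t i) (v ⟨t i, hmem i⟩) := ⟨_, rfl⟩
  have e1 := av_surj (fun b => fun j : T => e j.1 b) (fun b b' => by
    funext j
    exact he _ _ _) (fun v => by
      obtain ⟨b, hb⟩ := hs T hTn v
      exact ⟨b, funext hb⟩) G
  have e2 := av_surj (fun ω : (j : J) → V j => fun j : T => ω j.1) (fun b b' => by
    funext j
    rfl) (fun v => by
      classical
      refine ⟨fun j => if h : j ∈ T then v ⟨j, h⟩ else 0, ?_⟩
      funext j
      simp only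
      rw [dif_pos j.2]) G
  rw [hG] at e1 e2
  exact e1.trans e2.symm

/-- **The exponential moment.** -/
theorem exp_moment (f : (j : J) → V j → ℝ) (a v : J → ℝ) (l : ℝ) (hf0 : ∀ j, av (f j) = 0) (hfa : ∀ j x, |f j x| ≤ a j) (hla : ∀ j, |l| * a j ≤ 1)
    (hfv : ∀ j, av (fun x => f j x ^ 2) ≤ v j) :
    av (fun ω : (j : J) → V j => Real.exp (l * ∑ j, f j (ω j))) ≤ Real.exp (l ^ 2 * ∑ j, v j) := by
  have h1 : av (fun ω : (j : J) → V j => Real.exp (l * ∑ j, f j (ω j))) = ∏ j, av (fun x => Real.exp (l * f j x)) := by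
    unfold av
    rw [prod_div_distrib]
    congr 1
    · have h2 : ∀ ω : (j : J) → V j, Real.exp (l * ∑ j, f j (ω j)) = ∏ j, Real.exp (l * f j (ω j)) := fun ω => by
        rw [mul_sum, Real.exp_sum]
      rw [sum_congr rfl fun ω _ => h2 ω, prod_univ_sum, Fintype.piFinset_univ]
    · rw [Fintype.card_pi]
      push_cast
      rfl
  have h2 : ∀ j, av (fun x => Real.exp (l * f j x)) ≤ Real.exp (l ^ 2 * v j) := by
    intro j
    have h3 : ∀ x, Real.exp (l * f j x) ≤ (1 + l * f j x) + l ^ 2 * (f j x) ^ 2 := by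
      intro x
      have h4 : |l * f j x| ≤ 1 := by
        rw [abs_mul]
        exact (mul_le_mul_of_nonneg_left (hfa j x) (abs_nonneg _)).trans (hla j)
      have h5 := (abs_le.1 (Real.abs_exp_sub_one_sub_id_le h4)).2
      nlinarith
    refine (av_mono _ _ h3).trans ?_
    rw [av_add, av_add, av_const, av_smul, av_smul, hf0 j, mul_zero, add_zero]
    have h6 : 1 + l ^ 2 * v j ≤ Real.exp (l ^ 2 * v j) := by
      have := Real.add_one_le_exp (l ^ 2 * v j)
      linarith
    refine le_trans ?_ h6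
    have := mul_le_mul_of_nonneg_left (hfv j) (sq_nonneg l)
    linarith
  rw [h1, mul_sum, Real.exp_sum]
  exact prod_le_prod (fun j _ => av_nonneg _ fun _ => (Real.exp_pos _).le) fun j _ => h2 j

/-- **The even moments.** -/
theorem even_moment (f : (j : J) → V j → ℝ) (a v : J → ℝ) (l : ℝ) (hl : 0 < l) (hf0 : ∀ j, av (f j) = 0) (hfa : ∀ j x, |f j x| ≤ a j)
    (hla : ∀ j, l * a j ≤ 1) (hfv : ∀ j, av (fun x => f j x ^ 2) ≤ v j) (p : ℕ) :
    av (fun ω : (j : J) → V j => (∑ j, f j (ω j)) ^ (2 * p)) ≤ 2 * (2 * p).factorial / l ^ (2 * p) * Real.exp (l ^ 2 * ∑ j, v j) := by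
  have hl' : 0 < l ^ (2 * p) := pow_pos hl _
  have hfac : (0 : ℝ) < (2 * p).factorial := by exact_mod_cast Nat.factorial_pos _
  have h1 : ∀ ω : (j : J) → V j, (∑ j, f j (ω j)) ^ (2 * p) ≤ ((2 * p).factorial / l ^ (2 * p)) *
      (Real.exp (l * ∑ j, f j (ω j)) + Real.exp (-l * ∑ j, f j (ω j))) := by
    intro ω
    obtain ⟨x, hx⟩ : ∃ x : ℝ, x = l * ∑ j, f j (ω j) := ⟨_, rfl⟩
    have h2 := Real.pow_div_factorial_le_exp |x| (abs_nonneg x) (2 * p)
    have h3 : Real.exp |x| ≤ Real.exp x + Real.exp (-x) := by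
      rcases abs_choice x with h | h
      · rw [h]
        linarith [Real.exp_pos (-x)]
      · rw [h]
        linarith [Real.exp_pos x]
    rw [(even_two_mul p).pow_abs, div_le_iff₀ hfac] at h2
    rw [neg_mul, ← hx, div_mul_eq_mul_div, le_div_iff₀ hl']
    have h4 : (∑ j, f j (ω j)) ^ (2 * p) * l ^ (2 * p) = x ^ (2 * p) := by
      rw [hx, mul_pow]
      ring
    rw [h4]
    refine h2.trans ?_
    rw [mul_comm]
    exact mul_le_mul_of_nonneg_left h3 hfac.le
  refine (av_mono _ _ h1).trans ?_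
  rw [av_smul, av_add]
  have h2 := exp_moment f a v l hf0 hfa (fun j => by rw [abs_of_pos hl]; exact hla j) hfv
  have h3 := exp_moment f a v (-l) hf0 hfa (fun j => by rw [abs_neg, abs_of_pos hl]; exact hla j) hfv
  rw [neg_sq] at h3
  have h4 : 0 ≤ ((2 * p).factorial : ℝ) / l ^ (2 * p) := by positivity
  calc _ ≤ (((2 * p).factorial : ℝ) / l ^ (2 * p)) * (Real.exp (l ^ 2 * ∑ j, v j) + Real.exp (l ^ 2 * ∑ j, v j)) :=
        mul_le_mul_of_nonneg_left (add_le_add h2 h3) h4
    _ = _ := by ring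

end product

end Q282OR
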