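import Pool.Agent.Q282.AE.Var
import Pool.Agent.Q282.OR.Ind

/-!
# The values at several closed points are independent
-/

set_option autoImplicit false
set_option linter.unusedSectionVars false

namespace Q282OR

open Finset MvPolynomial
open Q282GP (av av_add av_sub av_smul av_sum av_const av_nonneg av_mono abs_av)
open Q282AE (Gen idl idl_max img_full Box at' at_add)

section crt

variable {k : Type} [Field k] {M : ℕ}

/-- **The Chinese remainder theorem with a bound for the degree.** -/
theorem surj_many {T : Type} [Fintype T] {F : T → Type} [∀ j, Field (F j)] [∀ j, Algebra k (F j)] [∀ j, Module.Finite k (F j)]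
    (x : (j : T) → Fin M → F j) (hx : ∀ j, Gen k (x j)) (hne : ∀ i j, i ≠ j → idl k (x i) ≠ idl k (x j)) (N : ℕ)
    (hN : ∑ j, Module.finrank k (F j) ≤ N + 1) (t : (j : T) → F j) :
    ∃ p : MvPolynomial (Fin M) k, p.totalDegree ≤ N ∧ ∀ j, aeval (x j) p = t j := by
  classical
  rcases isEmpty_or_nonempty T with hT | hT
  · exact ⟨0, by rw [totalDegree_zero]; exact Nat.zero_le _, fun j => (hT.false j).elim⟩
  obtain ⟨y, hy⟩ : ∃ y : Fin M → (j : T) → F j, y = fun i j => x j i := ⟨_, rfl⟩
  have hev : ∀ (p : MvPolynomial (Fin M) k) (j : T), (aeval y p) j = aeval (x j) p := by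
    intro p j
    have h3 : (Pi.evalAlgHom k F j).comp (aeval y : MvPolynomial (Fin M) k →ₐ[k] (j : T) → F j) = aeval (x j) := by
      refine algHom_ext fun i => ?_
      rw [AlgHom.comp_apply, aeval_X, aeval_X, hy]
      rfl
    exact AlgHom.congr_fun h3 p
  have hsur : Function.Surjective (aeval y : MvPolynomial (Fin M) k →ₐ[k] (j : T) → F j) := by
    intro s
    choose p hp using fun j => hx j (s j)
    have hcop : Pairwise (Function.onFun IsCoprime fun j => idl k (x j)) := by
      intro i j hij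
      rw [Function.onFun, Ideal.isCoprime_iff_sup_eq]
      exact Ideal.IsMaximal.coprime_of_ne (idl_max (hx i)) (idl_max (hx j)) (hne i j hij)
    obtain ⟨r, hr⟩ := Ideal.pi_quotient_surjective hcop fun j => Ideal.Quotient.mk _ (p j)
    refine ⟨r, funext fun j => ?_⟩
    rw [hev, ← hp j]
    have h1 : r - p j ∈ idl k (x j) := Ideal.Quotient.eq.1 (hr j)
    have h2 : aeval (x j) (r - p j) = (0 : F j) := h1
    rw [map_sub, sub_eq_zero] at h2
    exact h2
  have hnt : Nontrivial ((j : T) → F j) := by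
    obtain ⟨j₀⟩ := hT
    refine ⟨0, 1, fun h => ?_⟩
    have := congrFun h j₀
    exact zero_ne_one this
  obtain ⟨p, hp1, hp2⟩ := img_full y hsur N (by rw [Module.finrank_pi_fintype]; exact hN) t
  refine ⟨p, hp1, fun j => ?_⟩
  rw [← hev, hp2]

end crt

section group

variable {k : Type} [Field k] [Fintype k] {M N : ℕ} {S : Type} [Fintype S] [DecidableEq S]
  {F : Type} [Field F] [Fintype F] [DecidableEq F] [Algebra k F]

/-- conjugate points -/
lemma conj_point {x x' : Fin M → F} (hx : Gen k x) (h : idl k x' = idl k x) : ∃ g : F →ₐ[k] F, ∀ i, g (x i) = x' i := by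
  have h1 : ∀ p ∈ RingHom.ker (aeval x : MvPolynomial (Fin M) k →ₐ[k] F), aeval x' p = (0 : F) := by
    intro p hp
    have : p ∈ idl k x' := by
      rw [h]
      exact hp
    exact this
  refine ⟨((Ideal.Quotient.liftₐ _ (aeval x' : MvPolynomial (Fin M) k →ₐ[k] F) h1).comp
    (Ideal.quotientKerAlgEquivOfSurjective (f := (aeval x : MvPolynomial (Fin M) k →ₐ[k] F)) hx).symm.toAlgHom), ?_⟩
  intro i
  have h2 : (Ideal.quotientKerAlgEquivOfSurjective (f := (aeval x : MvPolynomial (Fin M) k →ₐ[k] F)) hx).symm (x i) =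
      Ideal.Quotient.mk _ (X i) := by
    rw [AlgEquiv.symm_apply_eq]
    have := Ideal.quotientKerAlgEquivOfSurjective_mk (f := (aeval x : MvPolynomial (Fin M) k →ₐ[k] F)) hx (X i)
    rw [aeval_X] at this
    exact this.symm
  have h3 : (((Ideal.Quotient.liftₐ _ (aeval x' : MvPolynomial (Fin M) k →ₐ[k] F) h1).comp
    (Ideal.quotientKerAlgEquivOfSurjective (f := (aeval x : MvPolynomial (Fin M) k →ₐ[k] F)) hx).symm.toAlgHom)) (x i) =
    (Ideal.Quotient.liftₐ _ (aeval x' : MvPolynomial (Fin M) k →ₐ[k] F) h1)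
      ((Ideal.quotientKerAlgEquivOfSurjective (f := (aeval x : MvPolynomial (Fin M) k →ₐ[k] F)) hx).symm (x i)) := rfl
  rw [h3, h2]
  have h4 : (Ideal.Quotient.liftₐ _ (aeval x' : MvPolynomial (Fin M) k →ₐ[k] F) h1) (Ideal.Quotient.mk _ (X i)) = aeval x' (X i : MvPolynomial (Fin M) k) := rfl
  rw [h4, aeval_X]

lemma at_conj {x x' : Fin M → F} (g : F →ₐ[k] F) (hg : ∀ i, g (x i) = x' i) (c : Box k M N S) : at' x' c = fun s => g (at' x c s) := by
  funext s
  unfold at'
  have h1 : (aeval x' : MvPolynomial (Fin M) k →ₐ[k] F) = g.comp (aeval x) := by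
    refine algHom_ext fun i => ?_
    rw [AlgHom.comp_apply, aeval_X, aeval_X, hg]
  rw [h1]
  rfl

lemma av_conj (g : F →ₐ[k] F) (G : (S → F) → ℝ) : av (fun u : S → F => G fun s => g (u s)) = av G := by
  classical
  have hb : Function.Surjective g := Finite.surjective_of_injective g.toRingHom.injective
  refine av_surj (fun u : S → F => fun s => g (u s)) (fun a a' => ?_) (fun v => ?_) G
  · funext s
    exact map_add g _ _
  · choose w hw using hb
    exact ⟨fun s => w (v s), funext fun s => hw _⟩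

open Classical in
/-- The sum over the points is a sum over closed points of functions of independent values: there are representatives of the closed
points of degree `finrank k F`, and functions of the values at these representatives. -/
theorem grouping (Y : (Fin M → F) → (S → F) → ℝ) (hY0 : ∀ x, Gen k x → av (Y x) = 0) (B : ℝ) (hB : ∀ x u, |Y x u| ≤ B) :
    ∃ (P : Finset (Fin M → F)) (f : (Fin M → F) → (S → F) → ℝ), (∀ x ∈ P, Gen k x) ∧ (∀ x ∈ P, ∀ x' ∈ P, x ≠ x' → idl k x ≠ idl k x') ∧
      (∀ (N : ℕ) (c : Box k M N S), ∑ x ∈ univ.filter (Gen k (F := F) (M := M)), Y x (at' x c) = ∑ x ∈ P, f x (at' x c)) ∧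
      (∀ x ∈ P, av (f x) = 0) ∧ (∀ x ∈ P, ∀ u, |f x u| ≤ Module.finrank k F * B) ∧
      ∑ x ∈ P, av (fun u => f x u ^ 2) ≤ Module.finrank k F * (Fintype.card F : ℝ) ^ M * B ^ 2 := by
  have hfin : Module.Finite k F := Module.Finite.of_finite
  have hB0 : 0 ≤ B := (abs_nonneg _).trans (hB 0 0)
  obtain ⟨G, hG⟩ : ∃ G : Finset (Fin M → F), G = univ.filter (Gen k (F := F) (M := M)) := ⟨_, rfl⟩
  have hmG : ∀ x, x ∈ G ↔ Gen k x := fun x => by
    rw [hG, mem_filter]
    simp
  -- representatives
  have h1 : ∀ I ∈ G.image (idl k), ∃ x ∈ G, idl k x = I := fun I hI => by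
    obtain ⟨x, hx, rfl⟩ := mem_image.1 hI
    exact ⟨x, hx, rfl⟩
  choose! rep hrep1 hrep2 using h1
  obtain ⟨P, hP⟩ : ∃ P : Finset (Fin M → F), P = (G.image (idl k)).image rep := ⟨_, rfl⟩
  have hPG : ∀ x ∈ P, x ∈ G ∧ rep (idl k x) = x := by
    intro x hx
    rw [hP, mem_image] at hx
    obtain ⟨I, hI, rfl⟩ := hx
    exact ⟨hrep1 I hI, by rw [hrep2 I hI]⟩
  have hrP : ∀ x ∈ G, rep (idl k x) ∈ P := fun x hx => by
    rw [hP]
    exact mem_image_of_mem _ (mem_image_of_mem _ hx)
  have hri : ∀ x ∈ G, idl k (rep (idl k x)) = idl k x := fun x hx => hrep2 _ (mem_image_of_mem _ hx)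
  -- the automorphisms
  have h2 : ∀ x : Fin M → F, ∃ g : F →ₐ[k] F, x ∈ G → ∀ i, g (rep (idl k x) i) = x i := by
    intro x
    by_cases hx : x ∈ G
    · obtain ⟨g, hg⟩ := conj_point (x := rep (idl k x)) (x' := x) ((hmG _).1 (hPG _ (hrP x hx)).1) (hri x hx).symm
      exact ⟨g, fun _ => hg⟩
    · exact ⟨AlgHom.id k F, fun h => absurd h hx⟩
  choose g hg using h2
  obtain ⟨f, hf⟩ : ∃ f : (Fin M → F) → (S → F) → ℝ, f = fun y (u : S → F) => ∑ x ∈ G.filter (fun x => rep (idl k x) = y), Y x fun s => g x (u s) := ⟨_, rfl⟩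
  have hcard : ∀ y ∈ P, ((G.filter fun x => rep (idl k x) = y).card : ℝ) ≤ Module.finrank k F := by
    intro y hy
    have h3 := Q282AE.card_conj ((hmG _).1 (hPG y hy).1)
    rw [Nat.card_eq_fintype_card, Fintype.card_subtype] at h3
    refine le_trans ?_ (Nat.cast_le.2 h3)
    refine Nat.cast_le.2 (card_le_card fun x hx => ?_)
    rw [mem_filter] at hx ⊢
    exact ⟨mem_univ _, by rw [← hx.2, hri x hx.1]⟩
  refine ⟨P, f, fun x hx => (hmG x).1 (hPG x hx).1, ?_, ?_, ?_, ?_, ?_⟩
  · intro x hx x' hx' hne he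
    apply hne
    rw [← (hPG x hx).2, ← (hPG x' hx').2, he]
  · intro N c
    rw [← hG, ← sum_fiberwise_of_maps_to (g := fun x => rep (idl k x)) (t := P) (fun x hx => hrP x hx)]
    refine sum_congr rfl fun y _ => ?_
    rw [hf]
    refine sum_congr rfl fun x hx => ?_
    rw [mem_filter] at hx
    rw [at_conj (g x) (hg x hx.1) c, hx.2]
  · intro y _
    rw [hf]
    show av (fun u : S → F => ∑ x ∈ G.filter (fun x => rep (idl k x) = y), Y x fun s => g x (u s)) = 0
    rw [av_sum]
    refine sum_eq_zero fun x hx => ?_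
    rw [av_conj (g x) (Y x)]
    exact hY0 x ((hmG x).1 (mem_filter.1 hx).1)
  · intro y hy u
    rw [hf]
    refine (abs_sum_le_sum_abs _ _).trans ((sum_le_sum fun x _ => hB x _).trans ?_)
    rw [sum_const, nsmul_eq_mul]
    exact mul_le_mul_of_nonneg_right (hcard y hy) hB0
  · have h3 : ∀ y ∈ P, av (fun u => f y u ^ 2) ≤ Module.finrank k F * B ^ 2 * ((G.filter fun x => rep (idl k x) = y).card : ℝ) := by
      intro y hy
      have h4 : ∀ u, f y u ^ 2 ≤ Module.finrank k F * B ^ 2 * ((G.filter fun x => rep (idl k x) = y).card : ℝ) := by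
        intro u
        have h5 : |f y u| ≤ ((G.filter fun x => rep (idl k x) = y).card : ℝ) * B := by
          rw [hf]
          refine (abs_sum_le_sum_abs _ _).trans ((sum_le_sum fun x _ => hB x _).trans ?_)
          rw [sum_const, nsmul_eq_mul]
        rw [← sq_abs]
        have h6 := hcard y hy
        calc |f y u| ^ 2 ≤ (((G.filter fun x => rep (idl k x) = y).card : ℝ) * B) ^ 2 := pow_le_pow_left₀ (abs_nonneg _) h5 2
          _ = ((G.filter fun x => rep (idl k x) = y).card : ℝ) * B ^ 2 * ((G.filter fun x => rep (idl k x) = y).card : ℝ) := by ring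
          _ ≤ _ := by
            refine mul_le_mul_of_nonneg_right (mul_le_mul_of_nonneg_right h6 (sq_nonneg _)) (Nat.cast_nonneg _)
      refine (av_mono _ _ h4).trans ?_
      rw [av_const]
    refine (sum_le_sum h3).trans ?_
    rw [← mul_sum]
    have h4 : ∑ y ∈ P, ((G.filter fun x => rep (idl k x) = y).card : ℝ) = (G.card : ℝ) := by
      have := card_eq_sum_card_fiberwise (f := fun x => rep (idl k x)) (s := G) (t := P) (fun x hx => hrP x hx)
      rw [this]
      push_cast
      rfl
    rw [h4]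
    have h5 : (G.card : ℝ) ≤ (Fintype.card F : ℝ) ^ M := by
      have h6 : G.card ≤ Fintype.card (Fin M → F) := card_le_univ _
      rw [Fintype.card_fun, Fintype.card_fin] at h6
      exact_mod_cast h6
    calc Module.finrank k F * B ^ 2 * (G.card : ℝ) ≤ Module.finrank k F * B ^ 2 * (Fintype.card F : ℝ) ^ M :=
          mul_le_mul_of_nonneg_left h5 (by positivity)
      _ = _ := by ring

end group

end Q282OR
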