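import Pool.Agent.Q282.OR.Crt

/-!
# The high moments of the sums over the points of bounded degree
-/

set_option autoImplicit false
set_option linter.unusedSectionVars false

namespace Q282OR

open Finset MvPolynomial
open Q282GP (av av_add av_sub av_smul av_sum av_const av_nonneg av_mono abs_av)
open Q282AE (Gen idl idl_max img_full Box at' at_add)

lemma idl_rank {k : Type} [Field k] {M : ℕ} {F F' : Type} [Field F] [Field F'] [Algebra k F] [Algebra k F'] {x : Fin M → F} {x' : Fin M → F'}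
    (hx : Gen k x) (hx' : Gen k x') (h : idl k x = idl k x') : Module.finrank k F = Module.finrank k F' := by
  have e1 := Ideal.quotientKerAlgEquivOfSurjective (f := (aeval x : MvPolynomial (Fin M) k →ₐ[k] F)) hx
  have e2 := Ideal.quotientKerAlgEquivOfSurjective (f := (aeval x' : MvPolynomial (Fin M) k →ₐ[k] F')) hx'
  have e3 : (MvPolynomial (Fin M) k ⧸ idl k x) ≃ₐ[k] (MvPolynomial (Fin M) k ⧸ idl k x') := Ideal.quotientEquivAlgOfEq k h
  exact ((e1.symm.trans e3).trans e2).toLinearEquiv.finrank_eq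

open Classical in
/-- **The high moments.** -/
theorem moment {k : Type} [Field k] [Fintype k] {M N : ℕ} {S : Type} [Fintype S] [DecidableEq S]
    (Fm : ℕ → Type) [∀ m, Field (Fm m)] [∀ m, Algebra k (Fm m)] [∀ m, Fintype (Fm m)] (hF : ∀ m, 1 ≤ m → Module.finrank k (Fm m) = m)
    (Y : (m : ℕ) → (Fin M → Fm m) → (S → Fm m) → ℝ) (hY0 : ∀ m, 1 ≤ m → ∀ x, Gen k x → av (Y m x) = 0) (B : ℝ) (hB : ∀ m x u, |Y m x u| ≤ B)
    (K p : ℕ) (hKp : 2 * p * K ≤ N + 1) (ρ : ℕ → ℝ) (l : ℝ) (hl : 0 < l) (hlB : ∀ m ∈ Icc 1 K, l * (|ρ m| * (m * B)) ≤ 1) :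
    av (fun c : Box k M N S => (∑ m ∈ Icc 1 K, ρ m * ∑ x ∈ univ.filter (Gen k (F := Fm m) (M := M)), Y m x (at' x c)) ^ (2 * p)) ≤
      2 * (2 * p).factorial / l ^ (2 * p) * Real.exp (l ^ 2 * ∑ m ∈ Icc 1 K, ρ m ^ 2 * (m * (Fintype.card (Fm m) : ℝ) ^ M * B ^ 2)) := by
  have hB0 : 0 ≤ B := (abs_nonneg _).trans (hB 0 0 0)
  have hg : ∀ m, ∃ (P : Finset (Fin M → Fm m)) (f : (Fin M → Fm m) → (S → Fm m) → ℝ), m ∈ Icc 1 K → (∀ x ∈ P, Gen k x) ∧
      (∀ x ∈ P, ∀ x' ∈ P, x ≠ x' → idl k x ≠ idl k x') ∧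
      (∀ (N : ℕ) (c : Box k M N S), ∑ x ∈ univ.filter (Gen k (F := Fm m) (M := M)), Y m x (at' x c) = ∑ x ∈ P, f x (at' x c)) ∧
      (∀ x ∈ P, av (f x) = 0) ∧ (∀ x ∈ P, ∀ u, |f x u| ≤ m * B) ∧
      ∑ x ∈ P, av (fun u => f x u ^ 2) ≤ m * (Fintype.card (Fm m) : ℝ) ^ M * B ^ 2 := by
    intro m
    by_cases hm : m ∈ Icc 1 K
    · rw [mem_Icc] at hm
      obtain ⟨P, f, h1, h2, h3, h4, h5, h6⟩ := grouping (k := k) (Y m) (hY0 m hm.1) B (hB m)
      rw [hF m hm.1] at h6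
      refine ⟨P, f, fun _ => ⟨h1, h2, h3, h4, ?_, h6⟩⟩
      intro x hx u
      have := h5 x hx u
      rwa [hF m hm.1] at this
    · exact ⟨∅, fun _ _ => 0, fun h => absurd h hm⟩
  choose P f hPf using hg
  obtain ⟨J, hJ⟩ : ∃ J : Type, J = (Σ m : {m // m ∈ Icc 1 K}, {x // x ∈ P m.1}) := ⟨_, rfl⟩
  have key := transfer (J := Σ m : {m // m ∈ Icc 1 K}, {x // x ∈ P m.1}) (V := fun j => S → Fm j.1.1)
    (B := Box k M N S) (fun j c => at' j.2.1 c) (fun j c c' => at_add _ _ _) (2 * p) (by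
      intro T hT v
      have h1 : ∀ s : S, ∃ q : MvPolynomial (Fin M) k, q.totalDegree ≤ N ∧ ∀ j : T, aeval j.1.2.1 q = v j s := by
        intro s
        have : ∀ j : T, Module.Finite k (Fm j.1.1.1) := fun j => Module.Finite.of_finite
        refine surj_many (F := fun j : T => Fm j.1.1.1) (fun j : T => j.1.2.1) (fun j => (hPf _ j.1.1.2).1 _ j.1.2.2) ?_ N ?_ fun j => v j s
        · intro i j hij he
          apply hij
          apply Subtype.ext
          obtain ⟨⟨⟨m, hm⟩, x, hx⟩, hi⟩ := i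
          obtain ⟨⟨⟨m', hm'⟩, x', hx'⟩, hj⟩ := j
          simp only at he ⊢
          have h2 := idl_rank ((hPf m hm).1 x hx) ((hPf m' hm').1 x' hx') he
          rw [hF m (mem_Icc.1 hm).1, hF m' (mem_Icc.1 hm').1] at h2
          subst h2
          have h3 : x = x' := by
            by_contra hne
            exact (hPf m hm).2.1 x hx x' hx' hne he
          subst h3
          rfl
        · have h2 : ∀ j : T, Module.finrank k (Fm j.1.1.1) ≤ K := fun j => by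
            rw [hF _ (mem_Icc.1 j.1.1.2).1]
            exact (mem_Icc.1 j.1.1.2).2
          refine (sum_le_sum fun j _ => h2 j).trans ?_
          rw [sum_const, smul_eq_mul, card_univ, Fintype.card_coe]
          exact (Nat.mul_le_mul_right K hT).trans hKp
      choose q hq1 hq2 using h1
      refine ⟨fun s => ⟨q s, (mem_restrictTotalDegree _ _ _).2 (hq1 s)⟩, fun j => ?_⟩
      funext s
      exact hq2 s j) fun j u => ρ j.1.1 * f j.1.1 j.2.1 u
  have hsum : ∀ G : (m : ℕ) → (Fin M → Fm m) → ℝ, ∑ j : (Σ m : {m // m ∈ Icc 1 K}, {x // x ∈ P m.1}), G j.1.1 j.2.1 =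
      ∑ m ∈ Icc 1 K, ∑ x ∈ P m, G m x := by
    intro G
    rw [Fintype.sum_sigma, ← sum_coe_sort (Icc 1 K) fun m => ∑ x ∈ P m, G m x]
    exact sum_congr rfl fun m _ => sum_coe_sort (P m.1) fun x => G m.1 x
  have h1 : ∀ c : Box k M N S, ∑ m ∈ Icc 1 K, ρ m * ∑ x ∈ univ.filter (Gen k (F := Fm m) (M := M)), Y m x (at' x c) =
      ∑ j : (Σ m : {m // m ∈ Icc 1 K}, {x // x ∈ P m.1}), ρ j.1.1 * f j.1.1 j.2.1 (at' j.2.1 c) := by
    intro c
    rw [hsum fun m x => ρ m * f m x (at' x c)]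
    refine sum_congr rfl fun m hm => ?_
    rw [(hPf m hm).2.2.1 N c, mul_sum]
  simp only [h1]
  rw [key]
  refine (even_moment (J := Σ m : {m // m ∈ Icc 1 K}, {x // x ∈ P m.1}) (V := fun j => S → Fm j.1.1)
    (fun j u => ρ j.1.1 * f j.1.1 j.2.1 u) (fun j => |ρ j.1.1| * (j.1.1 * B)) (fun j => ρ j.1.1 ^ 2 * av fun u => f j.1.1 j.2.1 u ^ 2) l hl
    (fun j => ?_) (fun j u => ?_) (fun j => ?_) (fun j => ?_) p).trans ?_
  · rw [av_smul, (hPf _ j.1.2).2.2.2.1 _ j.2.2, mul_zero]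
  · rw [abs_mul]
    exact mul_le_mul_of_nonneg_left ((hPf _ j.1.2).2.2.2.2.1 _ j.2.2 u) (abs_nonneg _)
  · exact hlB _ j.1.2
  · have h2 : (fun u => (ρ j.1.1 * f j.1.1 j.2.1 u) ^ 2) = fun u => ρ j.1.1 ^ 2 * f j.1.1 j.2.1 u ^ 2 := by
      funext u
      ring
    rw [h2, av_smul]
  · refine mul_le_mul_of_nonneg_left (Real.exp_le_exp.2 (mul_le_mul_of_nonneg_left ?_ (sq_nonneg l))) (by positivity)
    rw [hsum fun m x => ρ m ^ 2 * av fun u => f m x u ^ 2]
    refine sum_le_sum fun m hm => ?_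
    rw [← mul_sum]
    exact mul_le_mul_of_nonneg_left (hPf m hm).2.2.2.2.2 (sq_nonneg _)

end Q282OR
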