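import Pool.Agent.Q282.AE.Core
import Pool.Agent.Q282.GS.Kun
import Pool.Agent.Q282.OR.Mom

/-!
# The traces on the cohomology of odd degree of the powers
-/

set_option autoImplicit false
set_option linter.unusedSectionVars false

namespace Q282OR

open Finset MvPolynomial
open Q282MM (gm)
open Q282GH (zeros Through)
open Q282GP (av av_add av_sub av_smul av_sum av_const av_nonneg av_mono abs_av gen fam oc tt vv oser kun coh kun_card kun_norm coh_card coh_norm)
open Q282GS (co trace_gen co_even)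
open Q282AE (Gen idl Box at' at_add ev tau card_not_gen zeros_member member bet)

section

variable {k : Type} [Field k] {M : ℕ} {A : Type} {ι : A → Type} [∀ a, Fintype (ι a)] {n : ℕ}

open Classical in
/-- the normalised trace on the cohomology of degree `j` of the power, without the sign, zero outside the open set -/
noncomputable def XO [Fintype A] {F : Type} [Field F] [Algebra k F] (w : ℕ → ℕ) (D r ν j : ℕ) (E : Set (MvPolynomial (Fin (n + 1)) (MvPolynomial (Fin M) k)))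
    (f : (a : A) → ι a → MvPolynomial (Fin (n + 1)) (MvPolynomial (Fin M) k)) (Δ : MvPolynomial (Σ a, ι a) (MvPolynomial (Fin M) k))
    (x : Fin M → F) (u : (Σ a, ι a) → F) : ℝ :=
  if eval₂ (ev x) u Δ = 0 then 0 else ∑ κ ∈ range (ν + 1), (co w D r ν j κ : ℝ) * tau w D r E f x u ^ κ

variable (Fm : ℕ → Type) [∀ m, Field (Fm m)] [∀ m, Algebra k (Fm m)]

/-- The eigenvalues `α m x u` for the member with the coefficients `u` over the point `x` with coordinates in `Fm m`, where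
`Δ(x, u) ≠ 0`: their number is `b`, they are at most `q ^ (m D / 2)`, and the trace formula holds. -/
structure IsFamily (w : ℕ → ℕ) (D r b : ℕ) (E : Set (MvPolynomial (Fin (n + 1)) (MvPolynomial (Fin M) k)))
    (f : (a : A) → ι a → MvPolynomial (Fin (n + 1)) (MvPolynomial (Fin M) k))
    (Δ : MvPolynomial (Σ a, ι a) (MvPolynomial (Fin M) k)) (α : (m : ℕ) → (Fin M → Fm m) → ((Σ a, ι a) → Fm m) → Multiset ℂ) : Prop where
  card : ∀ m, 1 ≤ m → ∀ (x : Fin M → Fm m) (u : (Σ a, ι a) → Fm m), eval₂ (ev x) u Δ ≠ 0 → (α m x u).card = b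
  norm : ∀ m, 1 ≤ m → ∀ (x : Fin M → Fm m) (u : (Σ a, ι a) → Fm m), eval₂ (ev x) u Δ ≠ 0 → ∀ a ∈ α m x u, ‖a‖ ≤ Real.sqrt (Nat.card (Fm m)) ^ D
  trace : ∀ m, 1 ≤ m → ∀ (x : Fin M → Fm m) (u : (Σ a, ι a) → Fm m), eval₂ (ev x) u Δ ≠ 0 →
    (zeros (eval₂Hom (ev x) u) (fam E f) : ℂ) = ((tt w D r (Nat.card (Fm m)) : ℝ) : ℂ) + (-1) ^ D * (α m x u).sum

/-- the sum over the points with values in `Fm m` of the open set of the traces on the cohomology in degree `j` of the `ν`-th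
power of the fibre -/
noncomputable def traceSum (w : ℕ → ℕ) (D r ν j : ℕ) (Δ : MvPolynomial (Σ a, ι a) (MvPolynomial (Fin M) k))
    (c : (Σ a, ι a) → MvPolynomial (Fin M) k) (α : (m : ℕ) → (Fin M → Fm m) → ((Σ a, ι a) → Fm m) → Multiset ℂ) (m : ℕ) : ℂ :=
  ∑ᶠ x : {x : Fin M → Fm m // eval₂ (ev x) (fun s => ev x (c s)) Δ ≠ 0},
    (kun (coh w D r (Nat.card (Fm m)) (α m x.1 fun s => ev x.1 (c s))) ν j).sum

end

lemma kun_le' (w : ℕ → ℕ) (D r b ν j q : ℕ) (α : Multiset ℂ) (hb : α.card = b) (hα : ∀ a ∈ α, ‖a‖ ≤ Real.sqrt q ^ D) :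
    ‖(kun (coh w D r q α) ν j).sum‖ ≤ bet w D r b ν j * Real.sqrt q ^ j := by
  have h1 := kun_norm (coh w D r q α) (Real.sqrt q) (Real.sqrt_nonneg _)
    (fun b' => coh_norm w D r q α (Real.sqrt q) (Real.sq_sqrt (Nat.cast_nonneg q)).symm hα b') ν j
  have h2 : (kun (coh w D r q α) ν j).card = bet w D r b ν j := by
    rw [kun_card]
    unfold bet
    congr 3
    ext b'
    rw [coh_card w D r q α b hb]
  rw [← h2]
  have h4 : ∀ s : Multiset ℂ, (∀ a ∈ s, ‖a‖ ≤ Real.sqrt q ^ j) → ‖s.sum‖ ≤ s.card * Real.sqrt q ^ j := by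
    intro s
    induction s using Multiset.induction_on with
    | empty => simp
    | cons a s ih =>
      intro hs
      rw [Multiset.sum_cons, Multiset.card_cons]
      push_cast
      have h5 := hs a (Multiset.mem_cons_self a s)
      have h6 := ih fun a' ha' => hs a' (Multiset.mem_cons_of_mem ha')
      refine (norm_add_le _ _).trans ?_
      linarith
  exact h4 _ h1

variable {k : Type} [Field k] {M n : ℕ} {A : Type} [Fintype A] [DecidableEq A] {ι : A → Type} [∀ a, Fintype (ι a)] [∀ a, DecidableEq (ι a)]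

section

variable {Fm : ℕ → Type} [∀ m, Field (Fm m)] [∀ m, Algebra k (Fm m)] [∀ m, Fintype (Fm m)]

/-- the sum of the eigenvalues in terms of the normalised trace -/
lemma kun_XO {w : ℕ → ℕ} {D r b : ℕ} {E : Set (MvPolynomial (Fin (n + 1)) (MvPolynomial (Fin M) k))}
    {f : (a : A) → ι a → MvPolynomial (Fin (n + 1)) (MvPolynomial (Fin M) k)}
    {Δ : MvPolynomial (Σ a, ι a) (MvPolynomial (Fin M) k)} {α : (m : ℕ) → (Fin M → Fm m) → ((Σ a, ι a) → Fm m) → Multiset ℂ}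
    (hα : IsFamily Fm w D r b E f Δ α) (ν j m : ℕ) (hm : 1 ≤ m) (x : Fin M → Fm m) (u : (Σ a, ι a) → Fm m) (hu : eval₂ (ev x) u Δ ≠ 0) :
    (kun (coh w D r (Nat.card (Fm m)) (α m x u)) ν j).sum = (((-Real.sqrt (Nat.card (Fm m))) ^ j * XO w D r ν j E f Δ x u : ℝ) : ℂ) := by
  obtain ⟨q, hq⟩ : ∃ q : ℕ, q = Nat.card (Fm m) := ⟨_, rfl⟩
  have hq1 : (1 : ℝ) ≤ q := by
    rw [hq]
    exact_mod_cast Nat.card_pos
  have hq0 : (0 : ℝ) < q := by linarith
  have h2 := hα.trace m hm x u hu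
  rw [← hq] at h2
  have hu0 : (Real.sqrt q : ℂ) ≠ 0 := by
    rw [Complex.ofReal_ne_zero]
    exact (Real.sqrt_pos.2 hq0).ne'
  have h3 : (α m x u).sum = (-1) ^ D * (((tau w D r E f x u : ℝ) : ℂ) * (Real.sqrt q : ℂ) ^ D) := by
    have h4 : ((tau w D r E f x u : ℝ) : ℂ) * (Real.sqrt q : ℂ) ^ D = (-1) ^ D * (α m x u).sum := by
      unfold tau
      rw [← hq]
      push_cast
      rw [div_mul_cancel₀ _ (pow_ne_zero _ hu0)]
      rw [h2]
      ring
    rw [h4, ← mul_assoc, ← mul_pow]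
    norm_num
  have h4 := trace_gen w D r q (α m x u) (Real.sqrt q : ℂ) _ (by
    rw [← Complex.ofReal_pow, Real.sq_sqrt hq0.le]
    simp) h3 ν j
  rw [← hq, h4]
  unfold XO
  rw [if_neg hu]
  push_cast
  rfl

/-- the normalised traces are bounded -/
lemma XO_le {w : ℕ → ℕ} {D r b : ℕ} {E : Set (MvPolynomial (Fin (n + 1)) (MvPolynomial (Fin M) k))}
    {f : (a : A) → ι a → MvPolynomial (Fin (n + 1)) (MvPolynomial (Fin M) k)}
    {Δ : MvPolynomial (Σ a, ι a) (MvPolynomial (Fin M) k)} {α : (m : ℕ) → (Fin M → Fm m) → ((Σ a, ι a) → Fm m) → Multiset ℂ}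
    (hα : IsFamily Fm w D r b E f Δ α) (ν j m : ℕ) (hm : 1 ≤ m) (x : Fin M → Fm m) (u : (Σ a, ι a) → Fm m) :
    |XO w D r ν j E f Δ x u| ≤ bet w D r b ν j := by
  by_cases hu : eval₂ (ev x) u Δ = 0
  · unfold XO
    rw [if_pos hu, abs_zero]
    exact Nat.cast_nonneg _
  · have h1 := kun_XO hα ν j m hm x u hu
    have h2 := kun_le' w D r b ν j (Nat.card (Fm m)) (α m x u) (hα.card m hm x u hu) (hα.norm m hm x u hu)
    have hq0 : (0 : ℝ) < Nat.card (Fm m) := by exact_mod_cast Nat.card_pos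
    have hs0 : 0 < Real.sqrt (Nat.card (Fm m)) ^ j := pow_pos (Real.sqrt_pos.2 hq0) j
    rw [h1, Complex.norm_real, Real.norm_eq_abs, abs_mul, abs_pow, abs_neg, abs_of_nonneg (Real.sqrt_nonneg _), mul_comm] at h2
    exact le_of_mul_le_mul_right h2 hs0

end

open Classical in
/-- **The mean values in odd degrees.** -/
theorem mean (D : ℕ) (hD : Odd D) (r : ℕ) (hr : 1 ≤ r) (hA : Fintype.card A = r) (w : ℕ → ℕ) (hw : w (D + r) = 1) (C₀ C₁ : ℝ)
    (ν : ℕ) (hν : 1 ≤ ν) (j : ℕ) (hj : Odd j) {J : Type} {h : J → MvPolynomial (Fin (n + 1)) (MvPolynomial (Fin M) k)} {e : J → ℕ} {d : A → ℕ}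
    {f : (a : A) → ι a → MvPolynomial (Fin (n + 1)) (MvPolynomial (Fin M) k)} (hh : ∀ j, (h j).IsHomogeneous (e j))
    (hd : ∀ j a, e j + 2 * ν ≤ d a + 1) (hf : ∀ a, Through h (d a) (f a)) (E : Set (MvPolynomial (Fin (n + 1)) (MvPolynomial (Fin M) k)))
    (Δ : MvPolynomial (Σ a, ι a) (MvPolynomial (Fin M) k)) :
    ∃ K₀ : ℝ, 0 ≤ K₀ ∧ ∀ {F : Type} [Field F] [Fintype F] [Algebra k F],
      (∀ x : Fin M → F, map (ev x) Δ ≠ 0 → |(zeros (ev x) E : ℝ) - ∑ j ∈ range (D + r + 1), w j * (Nat.card F : ℝ) ^ j| ≤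
        C₀ * Real.sqrt (Nat.card F) ^ (2 * r + D - 1)) →
      (∀ x : Fin M → F, map (ev x) Δ ≠ 0 → (zeros (ev x) (E ∪ Set.range h) : ℝ) ≤ C₁ * Real.sqrt (Nat.card F) ^ (D - 1)) →
      ∀ x : Fin M → F, Gen k x → |av (XO w D r ν j E f Δ x)| ≤ K₀ / Real.sqrt (Nat.card F) := by
  have hD1 : 1 ≤ D := hD.pos
  obtain ⟨K, hK0, hK⟩ := Q282AE.good_mom D r hD1 hr w hw |C₀| |C₁| Δ.totalDegree (abs_nonneg _) (abs_nonneg _) (Nat.cast_nonneg _) ν hν
  obtain ⟨c₁, hc₁⟩ : ∃ c₁ : ℝ, c₁ = ∑ κ ∈ range (ν + 1), (co w D r ν j κ : ℝ) *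
    (K + ∑ l ∈ range (κ + 1), (κ.choose l : ℝ) * gm l * (|C₁| * (1 + |C₁|) ^ κ)) := ⟨_, rfl⟩
  have hc₁0 : 0 ≤ c₁ := by
    rw [hc₁]
    positivity
  refine ⟨c₁, hc₁0, ?_⟩
  intro F _ _ _ hW hZ1 x hx
  rw [Nat.card_eq_fintype_card] at *
  have hp0 : (0 : ℝ) < Fintype.card F := Q282AE.card_pos
  have hp1 : (1 : ℝ) ≤ Fintype.card F := Q282AE.card_one
  obtain ⟨s, hs⟩ : ∃ s : ℝ, s = Real.sqrt (Fintype.card F) := ⟨_, rfl⟩
  have hs1 : 1 ≤ s := by
    rw [hs]
    exact Real.one_le_sqrt.2 hp1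
  have hs0 : 0 < s := by linarith
  rw [← hs] at hZ1 ⊢
  by_cases hΔ : map (ev x) Δ = 0
  · have h1 : XO w D r ν j E f Δ x = fun _ => 0 := by
      funext u
      unfold XO
      rw [if_pos]
      rw [← MvPolynomial.eval_map, hΔ, map_zero]
    rw [h1, av_const, abs_zero]
    positivity
  have hbad : ((univ.filter fun u : (Σ a, ι a) → F => eval₂ (ev x) u Δ = 0).card : ℝ) ≤
      (Δ.totalDegree : ℝ) * (Fintype.card F : ℝ) ^ Fintype.card (Σ a, ι a) / Fintype.card F := by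
    have h1 := Q282GH.sz (map (ev x) Δ) hΔ
    rw [le_div_iff₀ hp0]
    rw [Nat.card_eq_fintype_card, Fintype.card_subtype] at h1
    have h2 : (univ.filter fun u : (Σ a, ι a) → F => eval u (map (ev x) Δ) = 0) = univ.filter fun u => eval₂ (ev x) u Δ = 0 := by
      refine filter_congr fun u _ => ?_
      rw [MvPolynomial.eval_map]
    rw [h2] at h1
    refine h1.trans (mul_le_mul_of_nonneg_right ?_ (by positivity))
    have h3 : (map (ev x) Δ).totalDegree ≤ Δ.totalDegree := by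
      unfold totalDegree
      exact Finset.sup_mono (support_map_subset _ _)
    exact_mod_cast h3
  have hZ' : (zeros (ev x) (E ∪ Set.range h) : ℝ) ≤ |C₁| * s ^ (D - 1) :=
    (hZ1 x hΔ).trans (mul_le_mul_of_nonneg_right (le_abs_self _) (by positivity))
  have hZs : (zeros (ev x) (E ∪ Set.range h) : ℝ) / s ^ D ≤ |C₁| / s := by
    rw [div_le_div_iff₀ (by positivity) hs0]
    calc (zeros (ev x) (E ∪ Set.range h) : ℝ) * s ≤ |C₁| * s ^ (D - 1) * s := mul_le_mul_of_nonneg_right hZ' hs0.le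
      _ = |C₁| * s ^ D := by
        rw [mul_assoc, ← pow_succ]
        congr 2
        omega
  have hmom : ∀ κ ≤ ν, Odd κ → |av (fun u => if eval₂ (ev x) u Δ = 0 then 0 else tau w D r E f x u ^ κ)| ≤
      (K + ∑ l ∈ range (κ + 1), (κ.choose l : ℝ) * gm l * (|C₁| * (1 + |C₁|) ^ κ)) / s := by
    intro κ hκ hodd
    have h1 := (hK (ev x) (Q282AE.ev_surj hx) hA hh hd hf E (fun u => eval₂ (ev x) u Δ = 0) hbad
      ((hW x hΔ).trans (mul_le_mul_of_nonneg_right (le_abs_self _) (by positivity)))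
      ((hZ1 x hΔ).trans (by
        rw [← hs]
        refine mul_le_mul (le_abs_self _) (pow_le_pow_right₀ hs1 (by omega)) (by positivity) (abs_nonneg _))) κ hκ).1
    rw [← hs] at h1
    have hvv : vv w D r = 0 := by
      unfold vv
      rw [if_neg (Nat.not_even_iff_odd.2 hD)]
    rw [hvv, Nat.cast_zero, add_zero] at h1
    have h2 : |∑ l ∈ range (κ + 1), (κ.choose l : ℝ) * gm l * ((zeros (ev x) (E ∪ Set.range h) : ℝ) / s ^ D) ^ (κ - l)| ≤
        (∑ l ∈ range (κ + 1), (κ.choose l : ℝ) * gm l * (|C₁| * (1 + |C₁|) ^ κ)) / s := by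
      refine (abs_sum_le_sum_abs _ _).trans ?_
      rw [sum_div]
      refine sum_le_sum fun l hl => ?_
      rw [mem_range] at hl
      have hy0 : 0 ≤ (zeros (ev x) (E ∪ Set.range h) : ℝ) / s ^ D := by positivity
      rcases Nat.even_or_odd l with hl2 | hl2
      · rw [abs_of_nonneg (by positivity), mul_div_assoc]
        refine mul_le_mul_of_nonneg_left ?_ (by positivity)
        have h3 : 1 ≤ κ - l := by
          obtain ⟨a, ha⟩ := hodd
          obtain ⟨b, hb⟩ := hl2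
          omega
        obtain ⟨y, hy⟩ : ∃ y : ℝ, y = (zeros (ev x) (E ∪ Set.range h) : ℝ) / s ^ D := ⟨_, rfl⟩
        rw [← hy] at hZs hy0 ⊢
        have h4 : y ≤ 1 + |C₁| := by
          have : |C₁| / s ≤ |C₁| := div_le_self (abs_nonneg _) hs1
          linarith
        have h5 : y ^ (κ - l) = y * y ^ (κ - l - 1) := by
          rw [← pow_succ']
          congr 1
          omega
        have h6 : y ^ (κ - l - 1) ≤ (1 + |C₁|) ^ κ := by
          refine (pow_le_pow_left₀ hy0 h4 _).trans (pow_le_pow_right₀ ?_ (by omega))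
          linarith [abs_nonneg C₁]
        rw [h5]
        calc y * y ^ (κ - l - 1) ≤ |C₁| / s * (1 + |C₁|) ^ κ := mul_le_mul hZs h6 (by positivity) (by positivity)
          _ = _ := by ring
      · have h3 : gm l = 0 := if_neg (Nat.not_even_iff_odd.2 hl2)
        rw [h3, Nat.cast_zero, mul_zero, zero_mul, abs_zero, zero_mul, zero_div]
    have h3 := abs_sub_abs_le_abs_sub (av (fun u => if eval₂ (ev x) u Δ = 0 then 0 else tau w D r E f x u ^ κ))
      (∑ l ∈ range (κ + 1), (κ.choose l : ℝ) * gm l * ((zeros (ev x) (E ∪ Set.range h) : ℝ) / s ^ D) ^ (κ - l))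
    have h4 : |av (fun u => if eval₂ (ev x) u Δ = 0 then 0 else tau w D r E f x u ^ κ) -
        ∑ l ∈ range (κ + 1), (κ.choose l : ℝ) * gm l * ((zeros (ev x) (E ∪ Set.range h) : ℝ) / s ^ D) ^ (κ - l)| ≤ K / s := by
      unfold tau
      rw [Nat.card_eq_fintype_card, ← hs]
      exact h1
    rw [add_div]
    linarith
  have hXX : XO w D r ν j E f Δ x =
      fun u => ∑ κ ∈ range (ν + 1), (co w D r ν j κ : ℝ) * (if eval₂ (ev x) u Δ = 0 then 0 else tau w D r E f x u ^ κ) := by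
    funext u
    unfold XO
    split_ifs
    · simp
    · rfl
  rw [hXX, av_sum, hc₁, sum_div]
  refine (abs_sum_le_sum_abs _ _).trans (sum_le_sum fun κ hκ => ?_)
  rw [mem_range] at hκ
  rw [av_smul, abs_mul, abs_of_nonneg (Nat.cast_nonneg _ : (0 : ℝ) ≤ _), mul_div_assoc]
  rcases Nat.even_or_odd κ with hκ2 | hκ2
  · rw [co_even w D r ν j κ hj hκ2, Nat.cast_zero, zero_mul, zero_mul]
  · exact mul_le_mul_of_nonneg_left (hmom κ (by omega) hκ2) (Nat.cast_nonneg _)

end Q282OR
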